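import Pool.Agent.Lib.MP_b5021c_nt.U.H42.Upper2

/-!
# MP_b5021c_nt: the upper bound for `m_k` (Bertin), third part
-/

namespace Pool.Agent.MP_b5021c_nt.Upper

open Polynomial Filter Topology

noncomputable section

theorem aeval_EP_eq_zero {z : ℂ} {ns : List ℕ} (h : aeval z (EP ns) = 0) : ∃ n ∈ ns, z ^ n = 1 := by
  induction ns with
  | nil => simp [EP] at h
  | cons n ns ih =>
    rw [EP, map_mul] at h
    rcases mul_eq_zero.1 h with h | h
    · refine ⟨n, by simp, ?_⟩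
      simpa [sub_eq_zero] using h
    · obtain ⟨m, hm, h2⟩ := ih h
      exact ⟨m, by simp [hm], h2⟩

theorem aeval_EP_ne {z : ℂ} {ns : List ℕ} (h : ∀ n ∈ ns, z ^ n ≠ 1) : aeval z (EP ns) ≠ 0 := by
  intro h0
  obtain ⟨n, hn, h1⟩ := aeval_EP_eq_zero h0
  exact h n hn h1

theorem aeval_DP {z : ℂ} {ns : List ℕ} (h : ∀ n ∈ ns, z ^ n ≠ 1) :
    aeval z (DP ns) = aeval z (EP ns) * FC ns z := by
  induction ns with
  | nil => simp [DP, FC_nil]
  | cons n ns ih =>
    have h1 : z ^ n - 1 ≠ 0 := sub_ne_zero.2 (h n (by simp))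
    rw [DP, EP, FC_cons, map_add, map_mul, map_mul, ih (fun m hm => h m (by simp [hm]))]
    simp only [map_sub, map_pow, aeval_X, map_one]
    field_simp

theorem aeval_PP {e N : ℤ} {z : ℂ} (hz : z ≠ 0) {ns : List ℕ} (h : ∀ n ∈ ns, z ^ n ≠ 1) :
    aeval z (PP e N ns) = aeval z (EP ns) * z * (z - (e : ℂ) / z - N - FC ns z) := by
  rw [PP, map_sub, map_mul, map_mul, aeval_DP h]
  simp only [map_sub, map_add, map_mul, map_pow, aeval_X, aeval_C]
  simp only [eq_intCast]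
  field_simp
  ring

/-- A conjugate of a number larger than one is not a root of unity. -/
theorem pow_of_conj {θ : ℝ} (hi : IsIntegral ℤ θ) {γ : ℂ} (hγ : aeval γ (minpoly ℤ θ) = 0) {n : ℕ}
    (h : γ ^ n = 1) : θ ^ n = 1 := by
  have h1 : minpoly ℚ θ = (minpoly ℤ θ).map (algebraMap ℤ ℚ) :=
    minpoly.isIntegrallyClosed_eq_field_fractions' ℚ hi
  have hq : IsIntegral ℚ θ := hi.tower_top
  have h2 : aeval γ (minpoly ℚ θ) = 0 := by
    rw [h1, aeval_map_algebraMap]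
    exact hγ
  have h3 := minpoly.eq_of_irreducible_of_monic (minpoly.irreducible hq) h2 (minpoly.monic hq)
  have h4 : minpoly ℚ γ ∣ (X ^ n - 1 : ℚ[X]) := minpoly.dvd ℚ γ (by simp [h])
  rw [← h3] at h4
  obtain ⟨q, hq2⟩ := h4
  have h5 : aeval θ (X ^ n - 1 : ℚ[X]) = 0 := by
    rw [hq2, map_mul, minpoly.aeval, zero_mul]
  simpa [sub_eq_zero] using h5

/-! ## The real equation -/

/-- `∑ 1/(x^n - 1)`, real. -/
def FR (ns : List ℕ) (x : ℝ) : ℝ := (ns.map fun n => (x ^ n - 1)⁻¹).sum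

theorem FR_cons (n : ℕ) (ns : List ℕ) (x : ℝ) : FR (n :: ns) x = (x ^ n - 1)⁻¹ + FR ns x := rfl

theorem FR_nil (x : ℝ) : FR [] x = 0 := rfl

theorem FR_coe (ns : List ℕ) (x : ℝ) : ((FR ns x : ℝ) : ℂ) = FC ns (x : ℂ) := by
  induction ns with
  | nil => simp [FR_nil, FC_nil]
  | cons n ns ih => rw [FR_cons, FC_cons, ← ih]; push_cast; rfl

/-- The solutions of `θ - e/θ = N + ∑ 1/(θ^n - 1)`. -/
def Root (e N : ℤ) (ns : List ℕ) (θ : ℝ) : Prop := 8 / 5 ≤ θ ∧ θ - e / θ = N + FR ns θ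

theorem root_PS {e N : ℤ} (he : e = 0 ∨ e = 1) {ns : List ℕ} (hn : ∀ n ∈ ns, 1 ≤ n)
    (hk : (ns.length : ℝ) ≤ 2 * N - 2 + e) {θ : ℝ} (h : Root e N ns θ) : θ ∈ PS := by
  obtain ⟨h85, heq⟩ := h
  have h1 : 1 < θ := by linarith
  have hθ0 : (θ : ℂ) ≠ 0 := by
    intro h0
    have : θ = 0 := by exact_mod_cast h0
    linarith
  have hθn : 1 < ‖(θ : ℂ)‖ := by
    rw [Complex.norm_real, Real.norm_eq_abs]
    exact lt_of_lt_of_le h1 (le_abs_self θ)
  have heqC : (θ : ℂ) - (e : ℝ) / (θ : ℂ) = (N : ℝ) + FC ns (θ : ℂ) := by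
    rw [← FR_coe]
    have := congrArg (fun r : ℝ => (r : ℂ)) heq
    push_cast at this ⊢
    exact this
  have hpow : ∀ n ∈ ns, (θ : ℂ) ^ n ≠ 1 := fun n hm => sub_ne_zero.1 (pow_ne_one hθn (hn n hm))
  have hroot : aeval (θ : ℂ) (PP e N ns) = 0 := by
    rw [aeval_PP hθ0 hpow]
    have : (θ : ℂ) - (e : ℂ) / θ - N - FC ns θ = 0 := by
      have h2 := heqC
      push_cast at h2
      rw [h2]; ring
    rw [this, mul_zero]
  have hrootR : aeval θ (PP e N ns) = 0 := by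
    have h2 : aeval ((algebraMap ℝ ℂ) θ) (PP e N ns) = (algebraMap ℝ ℂ) (aeval θ (PP e N ns)) :=
      aeval_algebraMap_apply ℂ θ (PP e N ns)
    have h3 : (algebraMap ℝ ℂ) (aeval θ (PP e N ns)) = 0 := by rw [← h2]; exact hroot
    exact (map_eq_zero (algebraMap ℝ ℂ)).1 h3
  have hi : IsIntegral ℤ θ := ⟨PP e N ns, PP_monic e N hn, hrootR⟩
  refine ⟨h1, hi, fun γ hγ hne => ?_⟩
  by_contra hc
  push Not at hc
  have hγ0 : γ ≠ 0 := by
    intro h0
    rw [h0, norm_zero] at hc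
    linarith
  have hdvd : minpoly ℤ θ ∣ PP e N ns := minpoly.isIntegrallyClosed_dvd hi hrootR
  have hPγ : aeval γ (PP e N ns) = 0 := by
    obtain ⟨q, hq⟩ := hdvd
    rw [hq, map_mul, hγ, zero_mul]
  have hpγ : ∀ n ∈ ns, γ ^ n ≠ 1 := by
    intro n hm h2
    have h3 := pow_of_conj hi hγ h2
    have h4 : 1 < θ ^ n := one_lt_pow₀ h1 (by have := hn n hm; omega)
    linarith
  rw [aeval_PP hγ0 hpγ] at hPγ
  have heγ : γ - (e : ℝ) / γ = (N : ℝ) + FC ns γ := by
    have h2 := (mul_eq_zero.1 hPγ).resolve_left (mul_ne_zero (aeval_EP_ne hpγ) hγ0)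
    push_cast
    linear_combination h2
  have heR : (e : ℝ) = 0 ∨ (e : ℝ) = 1 := by
    rcases he with he | he
    · left; rw [he]; norm_num
    · right; rw [he]; norm_num
  rcases lt_or_eq_of_le hc with hc | hc
  · exact hne (unique heR hn hk hc hθn heγ heqC)
  · have hcn : ‖γ‖ = 1 := hc.symm
    have hre := congrArg Complex.re heγ
    have hinv : (((e : ℝ) : ℂ) / γ).re = (e : ℝ) * γ.re := by
      have h2 : (γ)⁻¹ = (starRingEnd ℂ) γ := by
        rw [Complex.inv_def, Complex.normSq_eq_norm_sq, hcn]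
        simp
      rw [div_eq_mul_inv, h2, Complex.mul_re]
      simp
    rw [Complex.sub_re, Complex.add_re, hinv, re_FC hcn ns hpγ, Complex.ofReal_re] at hre
    rcases he with he | he
    · rw [he] at hre hk
      push_cast at hre hk
      have h3 : γ.re ≤ 1 := by
        have := Complex.re_le_norm γ
        rwa [hcn] at this
      have h4 : γ.re = 1 := by linarith
      have h5 : γ = 1 := by
        have h6 : γ.im = 0 := by
          have := Complex.normSq_eq_norm_sq γ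
          rw [hcn, Complex.normSq_apply, h4] at this
          nlinarith
        exact Complex.ext (by simpa using h4) (by simpa using h6)
      have hns : ns = [] := by
        rcases ns with _ | ⟨n, ns⟩
        · rfl
        · exact absurd (by rw [h5, one_pow]) (hpγ n (by simp))
      apply hne
      rw [hns] at heγ heqC
      rw [he] at heγ heqC
      have h7 := heγ.trans ((by rw [FC_nil, FC_nil] : (N : ℝ) + FC [] γ = (N : ℝ) + FC [] (θ : ℂ)).trans
        heqC.symm)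
      simpa using h7
    · rw [he] at hre hk
      push_cast at hre hk
      linarith

/-! ## Existence of the root and the limits -/

theorem inv_le {x : ℝ} (hx : 8 / 5 ≤ x) {n : ℕ} (hn : 1 ≤ n) : 0 < (x ^ n - 1)⁻¹ ∧ (x ^ n - 1)⁻¹ ≤ 2 := by
  have h1 : x ≤ x ^ n := le_self_pow₀ (by linarith) (by omega)
  have h2 : 3 / 5 ≤ x ^ n - 1 := by linarith
  refine ⟨inv_pos.2 (by linarith), ?_⟩
  rw [inv_le_comm₀ (by linarith) (by norm_num)]
  linarith

theorem FR_nonneg {x : ℝ} (hx : 8 / 5 ≤ x) {ns : List ℕ} (hn : ∀ n ∈ ns, 1 ≤ n) : 0 ≤ FR ns x := by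
  induction ns with
  | nil => simp [FR_nil]
  | cons n ns ih =>
    rw [FR_cons]
    exact add_nonneg (inv_le hx (hn n (by simp))).1.le (ih fun m hm => hn m (by simp [hm]))

theorem FR_le {x : ℝ} (hx : 8 / 5 ≤ x) {ns : List ℕ} (hn : ∀ n ∈ ns, 1 ≤ n) :
    FR ns x ≤ 2 * ns.length := by
  induction ns with
  | nil => simp [FR_nil]
  | cons n ns ih =>
    have h1 := (inv_le hx (hn n (by simp))).2
    have h2 := ih fun m hm => hn m (by simp [hm])
    rw [FR_cons, List.length_cons]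
    push_cast
    linarith

theorem FR_anti {x y : ℝ} (hx : 8 / 5 ≤ x) (hxy : x ≤ y) {ns : List ℕ} (hn : ∀ n ∈ ns, 1 ≤ n) :
    FR ns y ≤ FR ns x := by
  induction ns with
  | nil => simp [FR_nil]
  | cons n ns ih =>
    have h1 : (y ^ n - 1)⁻¹ ≤ (x ^ n - 1)⁻¹ := by
      have h3 : x ^ n ≤ y ^ n := pow_le_pow_left₀ (by linarith) hxy n
      have h4 := inv_pos.1 (inv_le hx (hn n (by simp))).1
      exact inv_anti₀ h4 (by linarith)
    have h2 := ih fun m hm => hn m (by simp [hm])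
    rw [FR_cons, FR_cons]
    linarith

theorem FR_cont {a b : ℝ} (ha : 8 / 5 ≤ a) {ns : List ℕ} (hn : ∀ n ∈ ns, 1 ≤ n) :
    ContinuousOn (FR ns) (Set.Icc a b) := by
  induction ns with
  | nil => exact continuousOn_const
  | cons n ns ih =>
    change ContinuousOn (fun x => (x ^ n - 1)⁻¹ + FR ns x) (Set.Icc a b)
    refine ContinuousOn.add ?_ (ih fun m hm => hn m (by simp [hm]))
    refine ContinuousOn.inv₀ (by fun_prop) ?_
    intro x hx
    exact (inv_pos.1 (inv_le (le_trans ha hx.1) (hn n (by simp))).1).ne'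

/-- The function `x - e/x`. -/
theorem h_mono {e : ℤ} (he : e = 0 ∨ e = 1) {x y : ℝ} (hx : 8 / 5 ≤ x) (hxy : x ≤ y) :
    y - x ≤ (y - e / y) - (x - e / x) := by
  have h1 : (e : ℝ) / y ≤ e / x := by
    have h2 : (0 : ℝ) ≤ e := by rcases he with he | he <;> rw [he] <;> norm_num
    exact div_le_div_of_nonneg_left h2 (by linarith) hxy
  linarith

theorem exists_root {e N : ℤ} (he : e = 0 ∨ e = 1) {t : ℝ} (ht : Root e N [] t) {ns : List ℕ}
    (hn : ∀ n ∈ ns, 1 ≤ n) : ∃ θ, Root e N ns θ := by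
  obtain ⟨ht1, ht2⟩ := ht
  rw [FR_nil, add_zero] at ht2
  set b := t + 2 * ns.length with hb
  have htb : t ≤ b := by rw [hb]; have : (0 : ℝ) ≤ ns.length := Nat.cast_nonneg _; linarith
  have hc : ContinuousOn (fun x : ℝ => x - e / x - N - FR ns x) (Set.Icc t b) := by
    refine ContinuousOn.sub ?_ (FR_cont ht1 hn)
    refine ContinuousOn.sub ?_ continuousOn_const
    refine ContinuousOn.sub continuousOn_id ?_
    refine ContinuousOn.div continuousOn_const continuousOn_id ?_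
    intro x hx
    have := hx.1
    change x ≠ 0
    linarith
  have h0 : (0 : ℝ) ∈ Set.Icc (t - e / t - N - FR ns t) (b - e / b - N - FR ns b) := by
    refine ⟨?_, ?_⟩
    · have := FR_nonneg ht1 hn
      linarith
    · have h1 := FR_le (le_trans ht1 htb) hn
      have h2 := h_mono he ht1 htb
      linarith
  obtain ⟨θ, hθ, h3⟩ := intermediate_value_Icc htb hc h0
  refine ⟨θ, le_trans ht1 hθ.1, ?_⟩
  have h3' : θ - e / θ - N - FR ns θ = 0 := h3
  linarith

theorem root_close {e N : ℤ} (he : e = 0 ∨ e = 1) {ns : List ℕ} (hn : ∀ n ∈ ns, 1 ≤ n) {m : ℕ}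
    (hm : 1 ≤ m) {θ τ : ℝ} (h : Root e N ns θ) (h' : Root e N (m :: ns) τ) :
    θ < τ ∧ τ - θ ≤ ((8 / 5 : ℝ) ^ m - 1)⁻¹ := by
  obtain ⟨h1, h2⟩ := h
  obtain ⟨h3, h4⟩ := h'
  rw [FR_cons] at h4
  have h5 := (inv_le h3 hm).1
  have hlt : θ < τ := by
    by_contra hc
    push Not at hc
    have h6 := FR_anti h3 hc hn
    have h7 := h_mono he h3 hc
    linarith
  refine ⟨hlt, ?_⟩
  have h6 := FR_anti h1 hlt.le hn
  have h7 := h_mono he h1 hlt.le
  have h8 : (τ ^ m - 1)⁻¹ ≤ ((8 / 5 : ℝ) ^ m - 1)⁻¹ := by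
    have h9 : (8 / 5 : ℝ) ^ m ≤ τ ^ m := pow_le_pow_left₀ (by norm_num) h3 m
    have h10 := inv_pos.1 (inv_le (le_refl (8 / 5 : ℝ)) hm).1
    exact inv_anti₀ h10 (by linarith)
  linarith

theorem root_PSk {e N : ℤ} (he : e = 0 ∨ e = 1) {t : ℝ} (ht : Root e N [] t) (j : ℕ) :
    ∀ (ns : List ℕ), (∀ n ∈ ns, 1 ≤ n) → (ns.length : ℝ) + j ≤ 2 * N - 2 + e →
      ∀ θ : ℝ, Root e N ns θ → θ ∈ PSk j := by
  induction j with
  | zero =>
    intro ns hn hk θ hθ
    exact root_PS he hn (by simpa using hk) hθ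
  | succ j ih =>
    intro ns hn hk θ hθ
    have hcons : ∀ m : ℕ, ∀ n ∈ (m + 1) :: ns, 1 ≤ n := by
      intro m n hn'
      rcases List.mem_cons.1 hn' with h | h
      · omega
      · exact hn n h
    choose τ hτ using fun m : ℕ => exists_root he ht (hcons m)
    have hin : ∀ m, τ m ∈ PSk j := by
      intro m
      refine ih _ (hcons m) ?_ _ (hτ m)
      rw [List.length_cons]
      push_cast at hk ⊢
      linarith
    have hcl := fun m => root_close he hn (by omega : 1 ≤ m + 1) hθ (hτ m)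
    have hlim : Tendsto τ atTop (𝓝 θ) := by
      have h1 : Tendsto (fun m : ℕ => ((8 / 5 : ℝ) ^ (m + 1) - 1)⁻¹) atTop (𝓝 0) := by
        refine Tendsto.inv_tendsto_atTop ?_
        refine tendsto_atTop_add_const_right _ _ ?_
        exact (tendsto_pow_atTop_atTop_of_one_lt (by norm_num)).comp (tendsto_add_atTop_nat 1)
      have h2 : Tendsto (fun m => τ m - θ) atTop (𝓝 0) :=
        squeeze_zero (fun m => by have := (hcl m).1; linarith) (fun m => (hcl m).2) h1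
      have h3 := h2.add_const θ
      simpa using h3
    change θ ∈ derivedSet^[j + 1] PS
    rw [Function.iterate_succ_apply']
    change AccPt θ (𝓟 (PSk j))
    rw [accPt_iff_frequently]
    have h4 : ∃ᶠ m in atTop, τ m ≠ θ ∧ τ m ∈ PSk j :=
      (Eventually.of_forall fun m => ⟨(hcl m).1.ne', hin m⟩).frequently
    exact hlim.frequently h4

/-- `N ∈ S^(2N-2)` for `N ≥ 2`. -/
theorem nat_mem (N : ℕ) (hN : 2 ≤ N) : (N : ℝ) ∈ PSk (2 * N - 2) := by
  have hN' : (2 : ℝ) ≤ N := by exact_mod_cast hN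
  have hr : Root 0 (N : ℤ) [] (N : ℝ) := by
    refine ⟨by linarith, ?_⟩
    rw [FR_nil]
    simp
  refine root_PSk (Or.inl rfl) hr _ [] (by simp) ?_ _ hr
  push_cast [Nat.cast_sub (show 2 ≤ 2 * N by omega)]
  simp

/-- `(c + √(c²+4))/2 ∈ S^(2c-1)` for `c ≥ 1`. -/
theorem quad_mem (c : ℕ) (hc : 1 ≤ c) :
    ((c : ℝ) + Real.sqrt ((c : ℝ) ^ 2 + 4)) / 2 ∈ PSk (2 * c - 1) := by
  have hc' : (1 : ℝ) ≤ c := by exact_mod_cast hc
  have hs : Real.sqrt ((c : ℝ) ^ 2 + 4) ^ 2 = (c : ℝ) ^ 2 + 4 := Real.sq_sqrt (by positivity)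
  have hs1 : 11 / 5 ≤ Real.sqrt ((c : ℝ) ^ 2 + 4) := by
    refine Real.le_sqrt_of_sq_le ?_
    nlinarith
  have hr : Root 1 (c : ℤ) [] (((c : ℝ) + Real.sqrt ((c : ℝ) ^ 2 + 4)) / 2) := by
    refine ⟨by linarith, ?_⟩
    rw [FR_nil]
    have h1 : ((c : ℝ) + Real.sqrt ((c : ℝ) ^ 2 + 4)) ≠ 0 := by linarith
    field_simp
    push_cast
    nlinarith
  refine root_PSk (Or.inr rfl) hr _ [] (by simp) ?_ _ hr
  push_cast [Nat.cast_sub (show 1 ≤ 2 * c by omega)]
  simp
  linarith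

end

end Pool.Agent.MP_b5021c_nt.Upper
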