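import Pool.Agent.Lib.MP_b5021c_nt.IfaceK1

/-!
# MP_b5021c_nt: the upper bound for `m_k` (Bertin)

`x - e/x = N + ∑ 1/(x^(n_i) - 1)`, with `e = 0` or `e = 1` and `k ≤ 2N - 2 + e` exponents: the
root larger than one is a Pisot number.  So `N ∈ S^(2N-2)` and `(N + √(N^2+4))/2 ∈ S^(2N-1)`.
-/

namespace Pool.Agent.MP_b5021c_nt.Upper

open Polynomial Filter Topology

noncomputable section

/-! ## The kernel -/

/-- `∑ 1/(x^n - 1)`. -/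
def FC (ns : List ℕ) (x : ℂ) : ℂ := (ns.map fun n => (x ^ n - 1)⁻¹).sum

theorem FC_nil (x : ℂ) : FC [] x = 0 := rfl

theorem FC_cons (n : ℕ) (ns : List ℕ) (x : ℂ) : FC (n :: ns) x = (x ^ n - 1)⁻¹ + FC ns x := rfl

theorem pow_ne_one {x : ℂ} (hx : 1 < ‖x‖) {n : ℕ} (hn : 1 ≤ n) : x ^ n - 1 ≠ 0 := by
  intro h
  have h1 : x ^ n = 1 := sub_eq_zero.1 h
  have h2 : ‖x‖ ^ n = 1 := by rw [← norm_pow, h1, norm_one]
  have h3 : 1 < ‖x‖ ^ n := one_lt_pow₀ hx (by omega)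
  linarith

theorem mul_conj_ne {x y : ℂ} (hx : 1 < ‖x‖) (hy : 1 < ‖y‖) : x * (starRingEnd ℂ) y - 1 ≠ 0 := by
  intro h
  have h1 : x * (starRingEnd ℂ) y = 1 := sub_eq_zero.1 h
  have h2 : ‖x‖ * ‖y‖ = 1 := by
    rw [← RCLike.norm_conj y, ← norm_mul, h1, norm_one]
  nlinarith

theorem kernel_one {x y : ℂ} (hx : 1 < ‖x‖) (hy : 1 < ‖y‖) {n : ℕ} (hn : 1 ≤ n) :
    ∑ l ∈ Finset.range n, (x ^ l / (x ^ n - 1)) * (starRingEnd ℂ) (y ^ l / (y ^ n - 1)) =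
      ((x ^ n - 1)⁻¹ + (starRingEnd ℂ) ((y ^ n - 1)⁻¹) + 1) / (x * (starRingEnd ℂ) y - 1) := by
  have h1 := pow_ne_one hx hn
  have hy' : 1 < ‖(starRingEnd ℂ) y‖ := by rwa [RCLike.norm_conj]
  have h2 := pow_ne_one hy' hn
  have h3 := mul_conj_ne hx hy
  have h4 : (x * (starRingEnd ℂ) y) ≠ 1 := fun h => h3 (by rw [h, sub_self])
  have h5 := geom_sum_eq h4 n
  have h6 : ∑ l ∈ Finset.range n, (x ^ l / (x ^ n - 1)) * (starRingEnd ℂ) (y ^ l / (y ^ n - 1)) =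
      (∑ l ∈ Finset.range n, (x * (starRingEnd ℂ) y) ^ l) /
        ((x ^ n - 1) * (((starRingEnd ℂ) y) ^ n - 1)) := by
    rw [Finset.sum_div]
    refine Finset.sum_congr rfl fun l _ => ?_
    rw [map_div₀, map_sub, map_pow, map_pow, map_one, mul_pow, div_mul_div_comm]
  rw [h6, h5, map_inv₀, map_sub, map_pow, map_one, mul_pow]
  field_simp
  ring

/-- Positivity of the kernel of one exponent. -/
theorem pos_one {x y : ℂ} (hx : 1 < ‖x‖) (hy : 1 < ‖y‖) {n : ℕ} (hn : 1 ≤ n) :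
    0 ≤ (((x ^ n - 1)⁻¹ + (starRingEnd ℂ) ((x ^ n - 1)⁻¹) + 1) / (x * (starRingEnd ℂ) x - 1) +
      ((y ^ n - 1)⁻¹ + (starRingEnd ℂ) ((y ^ n - 1)⁻¹) + 1) / (y * (starRingEnd ℂ) y - 1) -
      2 * (((x ^ n - 1)⁻¹ + (starRingEnd ℂ) ((y ^ n - 1)⁻¹) + 1) /
        (x * (starRingEnd ℂ) y - 1))).re := by
  rw [← kernel_one hx hx hn, ← kernel_one hy hy hn, ← kernel_one hx hy hn, Finset.mul_sum,
    ← Finset.sum_add_distrib, ← Finset.sum_sub_distrib, Complex.re_sum]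
  refine Finset.sum_nonneg fun l _ => ?_
  generalize x ^ l / (x ^ n - 1) = p
  generalize y ^ l / (y ^ n - 1) = q
  have h : (p * (starRingEnd ℂ) p + q * (starRingEnd ℂ) q - 2 * (p * (starRingEnd ℂ) q)).re =
      (p.re - q.re) ^ 2 + (p.im - q.im) ^ 2 := by
    simp [Complex.mul_re]
    ring
  rw [h]
  positivity

/-- Positivity of the kernel. -/
theorem pos_all {x y : ℂ} (hx : 1 < ‖x‖) (hy : 1 < ‖y‖) (ns : List ℕ) (hn : ∀ n ∈ ns, 1 ≤ n) :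
    0 ≤ ((FC ns x + (starRingEnd ℂ) (FC ns x) + ns.length) / (x * (starRingEnd ℂ) x - 1) +
      (FC ns y + (starRingEnd ℂ) (FC ns y) + ns.length) / (y * (starRingEnd ℂ) y - 1) -
      2 * ((FC ns x + (starRingEnd ℂ) (FC ns y) + ns.length) /
        (x * (starRingEnd ℂ) y - 1))).re := by
  induction ns with
  | nil => simp [FC_nil]
  | cons n ns ih =>
    have h1 := pos_one hx hy (hn n (by simp))
    have h2 := ih (fun m hm => hn m (by simp [hm]))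
    have h3 := add_nonneg h1 h2
    rw [← Complex.add_re] at h3
    refine le_of_le_of_eq h3 ?_
    congr 1
    rw [FC_cons, FC_cons, List.length_cons, Nat.cast_add, Nat.cast_one, map_add, map_add]
    ring

/-- Cauchy-Schwarz for the Szegő kernel. -/
theorem szego {x y : ℂ} (hx : 1 < ‖x‖) (hy : 1 < ‖y‖) (p q : ℂ) :
    0 ≤ (p * (starRingEnd ℂ) p / (x * (starRingEnd ℂ) x - 1) +
      q * (starRingEnd ℂ) q / (y * (starRingEnd ℂ) y - 1) -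
      2 * (p * (starRingEnd ℂ) q / (x * (starRingEnd ℂ) y - 1))).re := by
  have hA : 0 < ‖x‖ ^ 2 - 1 := by nlinarith
  have hB : 0 < ‖y‖ ^ 2 - 1 := by nlinarith
  have hZ : 0 < ‖x * (starRingEnd ℂ) y - 1‖ := norm_pos_iff.2 (mul_conj_ne hx hy)
  have e1 : p * (starRingEnd ℂ) p / (x * (starRingEnd ℂ) x - 1) =
      ((‖p‖ ^ 2 / (‖x‖ ^ 2 - 1) : ℝ) : ℂ) := by
    rw [Complex.mul_conj, Complex.mul_conj, Complex.normSq_eq_norm_sq, Complex.normSq_eq_norm_sq]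
    push_cast; rfl
  have e2 : q * (starRingEnd ℂ) q / (y * (starRingEnd ℂ) y - 1) =
      ((‖q‖ ^ 2 / (‖y‖ ^ 2 - 1) : ℝ) : ℂ) := by
    rw [Complex.mul_conj, Complex.mul_conj, Complex.normSq_eq_norm_sq, Complex.normSq_eq_norm_sq]
    push_cast; rfl
  have e3 : (p * (starRingEnd ℂ) q / (x * (starRingEnd ℂ) y - 1)).re ≤
      ‖p‖ * ‖q‖ / ‖x * (starRingEnd ℂ) y - 1‖ := by
    refine le_trans (Complex.re_le_norm _) (le_of_eq ?_)
    rw [norm_div, norm_mul, RCLike.norm_conj]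
  have e4 : (‖x‖ ^ 2 - 1) * (‖y‖ ^ 2 - 1) ≤ ‖x * (starRingEnd ℂ) y - 1‖ ^ 2 := by
    have k1 : ‖x * (starRingEnd ℂ) y - 1‖ ^ 2 = (‖x‖ ^ 2 - 1) * (‖y‖ ^ 2 - 1) + ‖x - y‖ ^ 2 := by
      rw [← Complex.normSq_eq_norm_sq, ← Complex.normSq_eq_norm_sq, ← Complex.normSq_eq_norm_sq,
        ← Complex.normSq_eq_norm_sq]
      simp [Complex.normSq_apply]
      ring
    rw [k1]
    have := sq_nonneg ‖x - y‖
    linarith
  have e5 : 2 * (‖p‖ * ‖q‖ / ‖x * (starRingEnd ℂ) y - 1‖) ≤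
      ‖p‖ ^ 2 / (‖x‖ ^ 2 - 1) + ‖q‖ ^ 2 / (‖y‖ ^ 2 - 1) := by
    have k0 : 0 ≤ ‖p‖ ^ 2 / (‖x‖ ^ 2 - 1) + ‖q‖ ^ 2 / (‖y‖ ^ 2 - 1) := by positivity
    refine le_of_sq_le_sq ?_ k0
    have k2 : (2 * (‖p‖ * ‖q‖ / ‖x * (starRingEnd ℂ) y - 1‖)) ^ 2 =
        4 * (‖p‖ ^ 2 * ‖q‖ ^ 2) / ‖x * (starRingEnd ℂ) y - 1‖ ^ 2 := by
      field_simp
      ring
    have k3 : 4 * (‖p‖ ^ 2 * ‖q‖ ^ 2) / ‖x * (starRingEnd ℂ) y - 1‖ ^ 2 ≤
        4 * (‖p‖ ^ 2 * ‖q‖ ^ 2) / ((‖x‖ ^ 2 - 1) * (‖y‖ ^ 2 - 1)) :=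
      div_le_div_of_nonneg_left (by positivity) (mul_pos hA hB) e4
    have k4 : 4 * (‖p‖ ^ 2 * ‖q‖ ^ 2) / ((‖x‖ ^ 2 - 1) * (‖y‖ ^ 2 - 1)) =
        4 * ((‖p‖ ^ 2 / (‖x‖ ^ 2 - 1)) * (‖q‖ ^ 2 / (‖y‖ ^ 2 - 1))) := by
      field_simp
    rw [k2]
    refine le_trans k3 ?_
    rw [k4]
    nlinarith [sq_nonneg (‖p‖ ^ 2 / (‖x‖ ^ 2 - 1) - ‖q‖ ^ 2 / (‖y‖ ^ 2 - 1))]
  rw [e1, e2, Complex.sub_re, Complex.add_re, Complex.ofReal_re, Complex.ofReal_re]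
  have e6 : (2 * (p * (starRingEnd ℂ) q / (x * (starRingEnd ℂ) y - 1))).re =
      2 * (p * (starRingEnd ℂ) q / (x * (starRingEnd ℂ) y - 1)).re := by
    simp [Complex.mul_re]
  rw [e6]
  linarith

/-- The strict form. -/
theorem szego_strict {x y : ℂ} (hx : 1 < ‖x‖) (hy : 1 < ‖y‖) (p q : ℂ) :
    ‖p / x - q / y‖ ^ 2 ≤ (p * (starRingEnd ℂ) p / (x * (starRingEnd ℂ) x - 1) +
      q * (starRingEnd ℂ) q / (y * (starRingEnd ℂ) y - 1) -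
      2 * (p * (starRingEnd ℂ) q / (x * (starRingEnd ℂ) y - 1))).re := by
  have h := szego hx hy (p / x) (q / y)
  have hx0 : x ≠ 0 := by intro h0; rw [h0, norm_zero] at hx; linarith
  have hy0 : y ≠ 0 := by intro h0; rw [h0, norm_zero] at hy; linarith
  have hx0' : (starRingEnd ℂ) x ≠ 0 := by simpa using hx0
  have hy0' : (starRingEnd ℂ) y ≠ 0 := by simpa using hy0
  have key : ∀ a b u v : ℂ, a ≠ 0 → (starRingEnd ℂ) b ≠ 0 → a * (starRingEnd ℂ) b - 1 ≠ 0 →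
      u * (starRingEnd ℂ) v / (a * (starRingEnd ℂ) b - 1) =
        (u / a) * (starRingEnd ℂ) (v / b) +
        (u / a) * (starRingEnd ℂ) (v / b) / (a * (starRingEnd ℂ) b - 1) := by
    intro a b u v ha hb hab
    rw [map_div₀]
    field_simp
    ring
  rw [key x x p p hx0 hx0' (mul_conj_ne hx hx), key y y q q hy0 hy0' (mul_conj_ne hy hy),
    key x y p q hx0 hy0' (mul_conj_ne hx hy)]
  have h2 : ‖p / x - q / y‖ ^ 2 = ((p / x) * (starRingEnd ℂ) (p / x) +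
      (q / y) * (starRingEnd ℂ) (q / y) - 2 * ((p / x) * (starRingEnd ℂ) (q / y))).re := by
    generalize p / x = a
    generalize q / y = b
    rw [← Complex.normSq_eq_norm_sq]
    simp [Complex.normSq_apply]
    ring
  rw [h2]
  have h3 := add_le_add_left h (((p / x) * (starRingEnd ℂ) (p / x) +
      (q / y) * (starRingEnd ℂ) (q / y) - 2 * ((p / x) * (starRingEnd ℂ) (q / y))).re)
  rw [zero_add, ← Complex.add_re] at h3
  refine le_trans h3 (le_of_eq ?_)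
  congr 1
  ring

end

end Pool.Agent.MP_b5021c_nt.Upper
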