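import Pool.Agent.Lib.MP_b5021c_nt.U.H42.Upper

/-!
# MP_b5021c_nt: the upper bound for `m_k` (Bertin), second part
-/

namespace Pool.Agent.MP_b5021c_nt.Upper

open Polynomial Filter Topology

noncomputable section

/-! ## Uniqueness outside the closed disc -/

theorem unique {e : ℝ} (he : e = 0 ∨ e = 1) {N : ℝ} {ns : List ℕ} (hn : ∀ n ∈ ns, 1 ≤ n)
    (hk : (ns.length : ℝ) ≤ 2 * N - 2 + e) {x y : ℂ} (hx : 1 < ‖x‖) (hy : 1 < ‖y‖)
    (ex : x - e / x = N + FC ns x) (ey : y - e / y = N + FC ns y) : x = y := by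
  have hx0 : x ≠ 0 := by intro h0; rw [h0, norm_zero] at hx; linarith
  have hy0 : y ≠ 0 := by intro h0; rw [h0, norm_zero] at hy; linarith
  have h := pos_all hx hy ns hn
  have hFx : FC ns x = x - e / x - N := by rw [ex]; ring
  have hFy : FC ns y = y - e / y - N := by rw [ey]; ring
  rw [hFx, hFy] at h
  rcases he with he | he
  · have key : ∀ a b : ℂ, a * (starRingEnd ℂ) b - 1 ≠ 0 →
        ((a - (e : ℂ) / a - N) + (starRingEnd ℂ) (b - (e : ℂ) / b - N) + (ns.length : ℂ)) /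
          (a * (starRingEnd ℂ) b - 1) =
        1 - (a - 1) * (starRingEnd ℂ) (b - 1) / (a * (starRingEnd ℂ) b - 1) -
          ((2 * N - ns.length - 2 : ℝ) : ℂ) *
            (1 * (starRingEnd ℂ) 1 / (a * (starRingEnd ℂ) b - 1)) := by
      intro a b hab
      rw [he]
      push_cast
      rw [map_sub, map_sub, map_sub, Complex.conj_ofReal, map_one, zero_div, zero_div, map_zero]
      field_simp
      ring
    rw [key x x (mul_conj_ne hx hx), key y y (mul_conj_ne hy hy), key x y (mul_conj_ne hx hy)] at h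
    have s1 := szego_strict hx hy (x - 1) (y - 1)
    have s2 := szego hx hy 1 1
    have h2 : ∀ (A1 A2 B1 B2 C1 C2 : ℂ) (c : ℝ),
        (1 - A1 - (c : ℂ) * A2 + (1 - B1 - (c : ℂ) * B2) - 2 * (1 - C1 - (c : ℂ) * C2)).re =
          - (A1 + B1 - 2 * C1).re - c * (A2 + B2 - 2 * C2).re := by
      intro A1 A2 B1 B2 C1 C2 c
      simp [Complex.mul_re]
      ring
    rw [h2] at h
    have h3 : 0 ≤ (2 * N - ns.length - 2) * (1 * (starRingEnd ℂ) 1 / (x * (starRingEnd ℂ) x - 1) +
        1 * (starRingEnd ℂ) 1 / (y * (starRingEnd ℂ) y - 1) -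
        2 * (1 * (starRingEnd ℂ) 1 / (x * (starRingEnd ℂ) y - 1))).re := by
      refine mul_nonneg ?_ s2
      rw [he] at hk
      linarith
    have h4 : ‖(x - 1) / x - (y - 1) / y‖ ^ 2 ≤ 0 := by linarith
    have h5 : (x - 1) / x - (y - 1) / y = 0 := by
      have := pow_eq_zero_iff (two_ne_zero) |>.1 (le_antisymm h4 (sq_nonneg _))
      exact norm_eq_zero.1 this
    have h6 : (x - 1) * y = (y - 1) * x := (div_eq_div_iff hx0 hy0).1 (sub_eq_zero.1 h5)
    linear_combination h6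
  · have key : ∀ a b : ℂ, a ≠ 0 → b ≠ 0 → a * (starRingEnd ℂ) b - 1 ≠ 0 →
        ((a - (e : ℂ) / a - N) + (starRingEnd ℂ) (b - (e : ℂ) / b - N) + (ns.length : ℂ)) /
          (a * (starRingEnd ℂ) b - 1) =
        a⁻¹ + (starRingEnd ℂ) (b⁻¹) -
          ((2 * N - ns.length : ℝ) : ℂ) *
            (1 * (starRingEnd ℂ) 1 / (a * (starRingEnd ℂ) b - 1)) := by
      intro a b ha hb hab
      have hb' : (starRingEnd ℂ) b ≠ 0 := by simpa using hb
      rw [he]
      push_cast
      rw [map_sub, map_sub, Complex.conj_ofReal, map_one, map_div₀, map_one, map_inv₀]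
      field_simp
      ring
    rw [key x x hx0 hx0 (mul_conj_ne hx hx), key y y hy0 hy0 (mul_conj_ne hy hy),
      key x y hx0 hy0 (mul_conj_ne hx hy)] at h
    have s1 := szego_strict hx hy 1 1
    have h2 : ∀ (u v A2 B2 C2 : ℂ) (c : ℝ),
        (u + (starRingEnd ℂ) u - (c : ℂ) * A2 + (v + (starRingEnd ℂ) v - (c : ℂ) * B2) -
          2 * (u + (starRingEnd ℂ) v - (c : ℂ) * C2)).re =
          - c * (A2 + B2 - 2 * C2).re := by
      intro u v A2 B2 C2 c
      simp [Complex.mul_re]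
      ring
    rw [h2] at h
    have hc : 1 ≤ 2 * N - ns.length := by rw [he] at hk; linarith
    have h4 : ‖1 / x - 1 / y‖ ^ 2 ≤ 0 := by
      have h5 : 0 ≤ ‖1 / x - 1 / y‖ ^ 2 := sq_nonneg _
      nlinarith
    have h5 : 1 / x - 1 / y = 0 := by
      have := pow_eq_zero_iff (two_ne_zero) |>.1 (le_antisymm h4 (sq_nonneg _))
      exact norm_eq_zero.1 this
    have h6 : 1 * y = 1 * x := (div_eq_div_iff hx0 hy0).1 (sub_eq_zero.1 h5)
    linear_combination -h6

/-! ## The unit circle -/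

theorem re_inv_circle {w : ℂ} (hw : ‖w‖ = 1) (h1 : w ≠ 1) : ((w - 1)⁻¹).re = -1 / 2 := by
  have h2 : w.re ^ 2 + w.im ^ 2 = 1 := by
    have := Complex.normSq_eq_norm_sq w
    rw [hw, Complex.normSq_apply] at this
    nlinarith
  have h3 : Complex.normSq (w - 1) = 2 * (1 - w.re) := by
    rw [Complex.normSq_apply]
    simp
    nlinarith
  have h4 : 1 - w.re ≠ 0 := by
    intro h
    apply h1
    have h5 : w.re = 1 := by linarith
    have h6 : w.im = 0 := by
      rw [h5] at h2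
      nlinarith
    exact Complex.ext (by simpa using h5) (by simpa using h6)
  rw [Complex.inv_re, h3]
  simp
  field_simp
  ring

theorem re_FC {x : ℂ} (hx : ‖x‖ = 1) (ns : List ℕ) (h1 : ∀ n ∈ ns, x ^ n ≠ 1) :
    (FC ns x).re = -(ns.length : ℝ) / 2 := by
  induction ns with
  | nil => simp [FC_nil]
  | cons n ns ih =>
    rw [FC_cons, Complex.add_re, ih (fun m hm => h1 m (by simp [hm])),
      re_inv_circle (by rw [norm_pow, hx, one_pow]) (h1 n (by simp)), List.length_cons]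
    push_cast
    ring

/-! ## The polynomial -/

/-- `∏ (X^n - 1)`. -/
def EP : List ℕ → ℤ[X]
  | [] => 1
  | n :: ns => (X ^ n - 1) * EP ns

/-- `∑_i ∏_(j ≠ i) (X^(n_j) - 1)`. -/
def DP : List ℕ → ℤ[X]
  | [] => 0
  | n :: ns => EP ns + (X ^ n - 1) * DP ns

/-- `(X^2 - N X - e) E - X D`. -/
def PP (e N : ℤ) (ns : List ℕ) : ℤ[X] := (X ^ 2 - (C N * X + C e)) * EP ns - X * DP ns

theorem EP_monic {ns : List ℕ} (hn : ∀ n ∈ ns, 1 ≤ n) : (EP ns).Monic := by
  induction ns with
  | nil => exact monic_one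
  | cons n ns ih =>
    refine Monic.mul ?_ (ih fun m hm => hn m (by simp [hm]))
    have h1 : 1 ≤ n := hn n (by simp)
    exact monic_X_pow_sub_C (1 : ℤ) (by omega)

theorem DP_degree {ns : List ℕ} (hn : ∀ n ∈ ns, 1 ≤ n) : (DP ns).degree < (EP ns).degree := by
  induction ns with
  | nil => simp [DP, EP]
  | cons n ns ih =>
    have h1 : 1 ≤ n := hn n (by simp)
    have hns : ∀ m ∈ ns, 1 ≤ m := fun m hm => hn m (by simp [hm])
    have hm : (X ^ n - 1 : ℤ[X]).Monic := monic_X_pow_sub_C (1 : ℤ) (by omega)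
    have hd : (X ^ n - 1 : ℤ[X]).degree = n := degree_X_pow_sub_C (by omega) (1 : ℤ)
    have hE := EP_monic hns
    have hE0 : (EP ns).degree ≠ ⊥ := fun h => hE.ne_zero (degree_eq_bot.1 h)
    have hEd : (EP ns).degree = ((EP ns).natDegree : WithBot ℕ) := degree_eq_natDegree hE.ne_zero
    change (EP ns + (X ^ n - 1) * DP ns).degree < ((X ^ n - 1) * EP ns).degree
    refine lt_of_le_of_lt (degree_add_le _ _) (max_lt ?_ ?_)
    · rw [degree_mul, hd, hEd, ← Nat.cast_add, Nat.cast_lt]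
      omega
    · rw [degree_mul, degree_mul, hd]
      by_cases h0 : DP ns = 0
      · rw [h0, degree_zero, WithBot.add_bot, hEd, ← Nat.cast_add]
        exact WithBot.bot_lt_coe _
      · have h2 := ih hns
        rw [degree_eq_natDegree h0, hEd, Nat.cast_lt] at h2
        rw [degree_eq_natDegree h0, hEd, ← Nat.cast_add, ← Nat.cast_add, Nat.cast_lt]
        omega

theorem PP_monic (e N : ℤ) {ns : List ℕ} (hn : ∀ n ∈ ns, 1 ≤ n) : (PP e N ns).Monic := by
  have hE := EP_monic hn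
  have h1 : (X ^ 2 - (C N * X + C e) : ℤ[X]).Monic := by
    monicity!
  have h1d : (X ^ 2 - (C N * X + C e) : ℤ[X]).natDegree = 2 := by
    compute_degree!
  refine Monic.sub_of_left (h1.mul hE) ?_
  rw [degree_mul, degree_mul, degree_X, degree_eq_natDegree h1.ne_zero, h1d]
  by_cases h0 : DP ns = 0
  · rw [h0, degree_zero, WithBot.add_bot, degree_eq_natDegree hE.ne_zero, ← Nat.cast_add]
    exact WithBot.bot_lt_coe _
  · have h2 := DP_degree hn
    rw [degree_eq_natDegree h0, degree_eq_natDegree hE.ne_zero, Nat.cast_lt] at h2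
    rw [degree_eq_natDegree h0, degree_eq_natDegree hE.ne_zero, ← Nat.cast_add, ← Nat.cast_one,
      ← Nat.cast_add, Nat.cast_lt]
    omega

end

end Pool.Agent.MP_b5021c_nt.Upper
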